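import Pool.Agent.H18.FC2.KPrime
import Pool.Agent.H18.FC2.MainU
import Pool.Agent.H18.FC2.Law
import Pool.Agent.H18.FC2.ERankInst

/-!
# First emerging cycle of the random `d`-complex process: the full answer to Q1
-/

namespace Pool.Agent.Results.MP_7b3a93_pr.FirstCycle

open Finset

open Classical in
/-- For every field `F` and every `d ≥ 2`, with probability tending to one as `n → ∞`, the first
emerging cycle of the random `d`-complex process on `n` vertices is a copy of the boundary of the
`(d+1)`-simplex or covers all `n` vertices. -/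
theorem result (F : Type*) [Field F] (d : ℕ) (hd : 2 ≤ d) :
    Filter.Tendsto (fun n : ℕ =>
      ((univ.filter (fun e : FC.Ord (FC.fc d n) => FC.FirstSpan F d n e)).card : ℝ) /
        (Fintype.card (FC.Ord (FC.fc d n)) : ℝ)) Filter.atTop (nhds 1) := by
  obtain ⟨Q, hQ⟩ := FC.exists_erank F d
  have hKP : FC.KP (FC.h23_R F d) := fun e0 he0 => FC.kprime d hd e0 he0 Q (FC.h23_R F d) hQ
  exact FC.tendsto_of_bad F d (FC.main_U F d hd (FC.h23_R F d)
    ⟨(FC.h23_main F d).1, (FC.h23_main F d).2⟩ (fun a S => FC.h23_swap_rank F a S) hKP)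

end Pool.Agent.Results.MP_7b3a93_pr.FirstCycle
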